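import Pool.Agent.L0h14.CK.Fib

/-!
# Families over a base of any dimension
-/

universe u v w u' v'

open CategoryTheory

set_option autoImplicit false

namespace Pool.Agent.L0h14.PF

open Pool.Agent.L0h14.CK

variable {𝒱 : Type u} [Category.{v} 𝒱] [Preadditive 𝒱] [Linear ℚ 𝒱] {F : Type w} [Field F]

/-- The relation between the correspondences over the function field `K` of a projective variety `S` over `k`, of dimension `m`,
and the correspondences over `k`. The objects of `𝒲` are the smooth projective varieties `A` over `K` together with a smooth
projective variety `model A` over `k` with a morphism to `S` whose generic fibre is `A`; the morphisms are the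
correspondences of degree zero over `K`.

* `rel A` consists of the pairs of the generic fibre and of the push-forward to `model A × model A` of the cycles `z` on
the fibre product of `model A` with itself over `S`, of the dimension which corresponds to correspondences of degree zero. It is
surjective on the first factor, compatible with compositions, and contains the pair of the two diagonals.
* `HG j` is the `j`-th cohomology group of the geometric generic fibre.
* `fib A` consists of the cohomology classes of `model A` which are supported over proper closed subsets of `S`, that is, of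
the classes whose restriction to the part of `model A` over some non-empty open subset `U` of `S` is zero. If `S` is a curve
these are the classes which are supported on fibres.
* `leray`: if `x` in `H^k(model A)` is orthogonal to `fib A` then, by duality, its restriction to the part of `model A` over
a small affine open subset `U` comes from the cohomology with compact support. By the theorem of Artin, `H^a(U, R^b) = 0` for
`a > m` and `H_c^a(U, R^b) = 0` for `a < m`, the restriction belongs to the part `H^m(U, R^(k-m))` of the Leray spectral
sequence. If a relative correspondence acts as zero on `H^(k-m)` of the geometric generic fibre then it acts as zero on this part,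
so the image of `x` restricts to zero over `U`. -/
structure Family (T : CorrTheory 𝒱 F) (m : ℕ) (𝒲 : Type u') [Category.{v'} 𝒲] [Preadditive 𝒲] where
  model : 𝒲 → 𝒱
  rel : ∀ A : 𝒲, AddSubgroup ((A ⟶ A) × (model A ⟶ model A))
  HG : ℤ → 𝒲 ⥤ ModuleCat.{w} F
  fib : ∀ A : 𝒲, Submodule F (T.H.obj (model A))
  degree : ∀ {A : 𝒲} {f : A ⟶ A} {g : model A ⟶ model A}, (f, g) ∈ rel A → g ∈ T.gr (model A) (model A) 0
  lift : ∀ {A : 𝒲} (f : A ⟶ A), ∃ g : model A ⟶ model A, (f, g) ∈ rel A
  one : ∀ A : 𝒲, (𝟙 A, 𝟙 (model A)) ∈ rel A
  comp : ∀ {A : 𝒲} {f f' : A ⟶ A} {g g' : model A ⟶ model A}, (f, g) ∈ rel A → (f', g') ∈ rel A → (f ≫ f', g ≫ g') ∈ rel A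
  leray : ∀ {A : 𝒲} {f : A ⟶ A} {g : model A ⟶ model A}, (f, g) ∈ rel A → ∀ k : ℤ, (HG (k - m)).map f = 0 →
    ∀ x ∈ T.deg (model A) k, (∀ y ∈ T.deg (model A) (2 * T.dim (model A) - k), y ∈ fib A → T.pair (model A) x y = 0) →
      T.H.map g x ∈ fib A

variable {T : CorrTheory 𝒱 F} {m : ℕ} {𝒲 : Type u'} [Category.{v'} 𝒲] [Preadditive 𝒲]

/-- A Chow-Künneth decomposition of the generic fibre `A`, of dimension `dim (model A) - m`, over the function field: orthogonal
idempotent correspondences `π i` of degree zero whose sum is the diagonal such that `π i` acts as zero on the cohomology of the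
geometric generic fibre in all degrees `j ≠ i`. -/
def Family.GenericCK (Φ : Family T m 𝒲) (A : 𝒲) : Prop :=
  ∃ π : ℤ → (A ⟶ A), (∀ i, π i ≫ π i = π i) ∧ (∀ i j, i ≠ j → π i ≫ π j = 0) ∧
    ∑ i ∈ Finset.Icc 0 (2 * (T.dim (Φ.model A) - m)), π i = 𝟙 A ∧ ∀ i j, i ≠ j → (Φ.HG j).map (π i) = 0

/-- Relative correspondences of `model A` whose restriction to the generic fibre is zero are nilpotent modulo `J`.

If `model A → S` is smooth then the composition of `m + 1` such correspondences is zero, since a cycle which vanishes on the
generic fibre vanishes on all fibres (over a curve: the normal bundle of a fibre is trivial). If `S` is a curve and the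
fibres have simple normal crossings then this holds if the motives of the intersections of two different components
of a fibre are of the type considered in `J`. -/
def Family.NilpotentModJ (Φ : Family T m 𝒲) (J : ∀ X Y : 𝒱, Submodule ℚ (X ⟶ Y)) (A : 𝒲) : Prop :=
  ∀ g : Φ.model A ⟶ Φ.model A, (0, g) ∈ Φ.rel A → ∃ l : ℕ, (show End (Φ.model A) from g) ^ l ∈ J (Φ.model A) (Φ.model A)

/-- In every degree `k` the cohomology classes which are supported over proper closed subsets of `S` come from `J`: some
element of `J`, of degree zero, acts on them as the identity. -/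
def Family.SupportedFromJ (Φ : Family T m 𝒲) (J : ∀ X Y : 𝒱, Submodule ℚ (X ⟶ Y)) (A : 𝒲) : Prop :=
  ∀ k : ℤ, ∃ e ∈ J (Φ.model A) (Φ.model A), e ∈ T.gr (Φ.model A) (Φ.model A) 0 ∧
    ∀ x ∈ T.deg (Φ.model A) k, x ∈ Φ.fib A → T.H.map e x = x

end Pool.Agent.L0h14.PF
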